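import Pool.Agent.Lib.MP_6bc78b_nt.MS.L.Iface
import Pool.Agent.Lib.MP_02fec8_nt.Mert

/-! Module MER of board ms3a_modules: Mertens sums. -/

set_option autoImplicit false

open Finset ArithmeticFunction

namespace Pool.Agent.Lib.MP_6bc78b_nt.MS.L.H61

open Pool.Agent.Lib.MP_02fec8_nt.Mert (M mertens1 exists_B)

lemma w1_nonneg (n : ℕ) : 0 ≤ w1 n := div_nonneg vonMangoldt_nonneg (Nat.cast_nonneg n)

lemma Icc_eq_Ioc (n : ℕ) : Finset.Icc 1 n = Finset.Ioc 0 n := by
  ext k; simp only [mem_Icc, mem_Ioc]; omega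

lemma primesLE_eq (n : ℕ) : Nat.primesLE n = (Finset.Icc 1 n).filter Nat.Prime := by
  ext k
  rw [Nat.mem_primesLE, mem_filter, mem_Icc]
  constructor
  · rintro ⟨h1, h2⟩
    exact ⟨⟨h2.one_lt.le, h1⟩, h2⟩
  · rintro ⟨⟨_, h1⟩, h2⟩
    exact ⟨h1, h2⟩

lemma log_fact_eq (n : ℕ) : Real.log (n.factorial : ℝ) =
    ∑ k ∈ Finset.Ioc 0 n, vonMangoldt k * ((n / k : ℕ) : ℝ) := by
  rw [← sum_Ioc_mul_zeta_eq_sum, vonMangoldt_mul_zeta, ← Icc_eq_Ioc]
  simp only [log_apply]
  induction n with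
  | zero => simp
  | succ n ih =>
    rw [Finset.sum_Icc_succ_top (by omega), ← ih, Nat.factorial_succ, Nat.cast_mul,
      Real.log_mul (by positivity) (by positivity), add_comm]

lemma w1_log (n : ℕ) (hn : 1 ≤ n) :
    |∑ k ∈ Finset.Icc 1 n, w1 k - Real.log n| ≤ Real.log 4 + 5 := by
  have hn0 : (0 : ℝ) < n := by exact_mod_cast hn
  have h4 : 0 ≤ Real.log 4 := Real.log_nonneg (by norm_num)
  have h1 : Real.log (n.factorial : ℝ) ≤ n * Real.log n := by
    rw [← Real.log_pow]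
    apply Real.log_le_log (by exact_mod_cast n.factorial_pos)
    exact_mod_cast Nat.factorial_le_pow n
  have h2 : (n : ℝ) * Real.log n - n ≤ Real.log (n.factorial : ℝ) := by
    have h3 := Real.pow_div_factorial_le_exp (x := (n : ℝ)) hn0.le n
    have hf : (0 : ℝ) < (n.factorial : ℝ) := by exact_mod_cast n.factorial_pos
    have h5 := Real.log_le_log (by positivity) h3
    rw [Real.log_exp, Real.log_div (by positivity) hf.ne', Real.log_pow] at h5
    linarith
  have hpsi : ∑ k ∈ Finset.Icc 1 n, vonMangoldt k ≤ (Real.log 4 + 4) * n := by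
    have := Chebyshev.psi_le_const_mul_self (x := (n : ℝ)) hn0.le
    rw [Chebyshev.psi, Nat.floor_natCast] at this
    rwa [Icc_eq_Ioc]
  have hup : Real.log (n.factorial : ℝ) ≤ n * ∑ k ∈ Finset.Icc 1 n, w1 k := by
    rw [log_fact_eq, Icc_eq_Ioc, Finset.mul_sum]
    apply Finset.sum_le_sum
    intro k hk
    rw [w1]
    have h6 : ((n / k : ℕ) : ℝ) ≤ (n : ℝ) / k := Nat.cast_div_le
    calc vonMangoldt k * ((n / k : ℕ) : ℝ) ≤ vonMangoldt k * ((n : ℝ) / k) :=
          mul_le_mul_of_nonneg_left h6 vonMangoldt_nonneg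
      _ = _ := by ring
  have hlo : n * ∑ k ∈ Finset.Icc 1 n, w1 k - ∑ k ∈ Finset.Icc 1 n, vonMangoldt k ≤
      Real.log (n.factorial : ℝ) := by
    rw [log_fact_eq, Icc_eq_Ioc, Finset.mul_sum, ← Finset.sum_sub_distrib]
    apply Finset.sum_le_sum
    intro k hk
    rw [w1]
    have h6 : (n : ℝ) / k < ((n / k : ℕ) : ℝ) + 1 := by
      have := Nat.lt_floor_add_one ((n : ℝ) / k)
      rwa [Nat.floor_div_eq_div] at this
    calc (n : ℝ) * (vonMangoldt k / k) - vonMangoldt k = vonMangoldt k * ((n : ℝ) / k - 1) := by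
          ring
      _ ≤ _ := mul_le_mul_of_nonneg_left (by linarith) vonMangoldt_nonneg
  rw [abs_le]
  constructor
  · have : (n : ℝ) * (-(Real.log 4 + 5)) ≤ n * (∑ k ∈ Finset.Icc 1 n, w1 k - Real.log n) := by
      nlinarith
    exact le_of_mul_le_mul_left this hn0
  · have : (n : ℝ) * (∑ k ∈ Finset.Icc 1 n, w1 k - Real.log n) ≤ n * (Real.log 4 + 5) := by
      nlinarith
    exact le_of_mul_le_mul_left this hn0

lemma to_real (w : ℕ → ℝ) (C : ℝ)
    (h : ∀ n : ℕ, 1 ≤ n → |∑ k ∈ Finset.Icc 1 n, w k - Real.log n| ≤ C) (x : ℝ) (hx : 1 ≤ x) :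
    |∑ k ∈ Finset.Icc 1 ⌊x⌋₊, w k - Real.log x| ≤ C + 1 := by
  have hn : 1 ≤ ⌊x⌋₊ := Nat.one_le_floor_iff x |>.mpr hx
  have h1 := h _ hn
  have hn0 : (1 : ℝ) ≤ (⌊x⌋₊ : ℝ) := by exact_mod_cast hn
  have h2 : (⌊x⌋₊ : ℝ) ≤ x := Nat.floor_le (by linarith)
  have h3 : x < (⌊x⌋₊ : ℝ) + 1 := Nat.lt_floor_add_one x
  have h4 : Real.log (⌊x⌋₊ : ℝ) ≤ Real.log x := Real.log_le_log (by linarith) h2
  have h5 : Real.log x - Real.log (⌊x⌋₊ : ℝ) ≤ 1 := by
    rw [← Real.log_div (by linarith) (by linarith)]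
    have h6 : x / (⌊x⌋₊ : ℝ) ≤ 2 := by
      rw [div_le_iff₀ (by linarith)]; linarith
    have h7 := Real.log_le_sub_one_of_pos (x := x / (⌊x⌋₊ : ℝ)) (by positivity)
    linarith
  rw [abs_le] at h1 ⊢
  constructor <;> linarith [h1.1, h1.2]

theorem mer : MerStatement := by
  obtain ⟨C, hC0, hC⟩ := mertens1
  obtain ⟨B, hB0, hB⟩ := exists_B
  have h4 : 0 ≤ Real.log 4 := Real.log_nonneg (by norm_num)
  have hw2 : ∀ n : ℕ, ∑ k ∈ Finset.Icc 1 n, w2 k =
      M n + ∑ p ∈ Nat.primesLE n, Real.log p / ((p : ℝ) * (p - 1)) := by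
    intro n
    rw [M, ← Finset.sum_add_distrib, primesLE_eq]
    simp only [w2]
    rw [← Finset.sum_filter]
    apply Finset.sum_congr rfl
    intro p hp
    rw [mem_filter] at hp
    have hp2 : (2 : ℝ) ≤ p := by exact_mod_cast hp.2.two_le
    have hp1 : (p : ℝ) - 1 ≠ 0 := by linarith
    have hp0 : (p : ℝ) ≠ 0 := by linarith
    field_simp
    ring
  refine ⟨Real.log 4 + 6 + C + B, by linarith, ?_, ?_, ?_⟩
  · intro x hx
    have := to_real w1 _ w1_log x hx
    linarith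
  · intro x hx
    have := to_real w2 (C + B) (fun n hn => ?_) x hx
    · linarith
    · rw [hw2]
      have h1 := hC n hn
      have h2 := hB n
      have h3 : 0 ≤ ∑ p ∈ Nat.primesLE n, Real.log p / ((p : ℝ) * (p - 1)) := by
        apply Finset.sum_nonneg
        intro p hp
        rw [Nat.mem_primesLE] at hp
        have hp2 : (2 : ℝ) ≤ p := by exact_mod_cast hp.2.two_le
        have : 0 ≤ Real.log p := Real.log_nonneg (by linarith)
        have : 0 ≤ (p : ℝ) - 1 := by linarith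
        positivity
      rw [abs_le] at h1 ⊢
      constructor <;> linarith [h1.1, h1.2]
  · intro N
    rcases Nat.eq_zero_or_pos N with rfl | hN
    · simp; linarith
    have h1 := w1_log N hN
    have h2 := hC N hN
    have h3 : ∑ k ∈ Finset.Icc 1 N, w1 k = M N +
        ∑ n ∈ (Finset.Icc 1 N).filter (fun n => ¬ n.Prime), w1 n := by
      rw [← Finset.sum_filter_add_sum_filter_not (Finset.Icc 1 N) Nat.Prime, M, primesLE_eq]
      congr 1
      apply Finset.sum_congr rfl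
      intro p hp
      rw [mem_filter] at hp
      rw [w1, vonMangoldt_apply_prime hp.2]
    rw [abs_le] at h1 h2
    linarith [h1.1, h1.2, h2.1, h2.2]

end Pool.Agent.Lib.MP_6bc78b_nt.MS.L.H61
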