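import Mathlib

/-! `∑_{b ≤ v} log b / b = log² v / 2 + γ' + O((1 + log v)/v)` (for module SLL). -/

set_option autoImplicit false

open Finset

namespace Pool.Agent.Lib.MP_6bc78b_nt.MS.L.H61

lemma mvt_log {s t : ℝ} (hs : 3 ≤ s) (hst : s ≤ t) :
    (t - s) * (Real.log t / t) ≤ Real.log t ^ 2 / 2 - Real.log s ^ 2 / 2 ∧
    Real.log t ^ 2 / 2 - Real.log s ^ 2 / 2 ≤ (t - s) * (Real.log s / s) := by
  rcases hst.eq_or_lt with rfl | hlt
  · simp
  have he : Real.exp 1 ≤ 3 := by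
    have := Real.exp_one_lt_d9
    linarith
  obtain ⟨c, hc, hc2⟩ := exists_hasDerivAt_eq_slope (fun t => Real.log t ^ 2 / 2)
    (fun t => Real.log t / t) hlt
    (by
      apply ContinuousOn.div_const
      apply ContinuousOn.pow
      apply Real.continuousOn_log.mono
      intro x hx
      simp only [Set.mem_Icc] at hx
      simp only [Set.mem_compl_iff, Set.mem_singleton_iff]
      linarith [hx.1])
    (by
      intro x hx
      have hx0 : x ≠ 0 := by linarith [hx.1]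
      have h1 : HasDerivAt (fun t => Real.log t ^ 2 / 2)
          (((2 : ℕ) : ℝ) * Real.log x ^ (2 - 1) * x⁻¹ / 2) x :=
        ((Real.hasDerivAt_log hx0).pow 2).div_const 2
      refine h1.congr_deriv ?_
      norm_num
      ring)
  have h1 : 0 < t - s := by linarith
  have h2 : Real.log t ^ 2 / 2 - Real.log s ^ 2 / 2 = (t - s) * (Real.log c / c) := by
    rw [hc2]; field_simp
  have hA : Real.log c / c ≤ Real.log s / s :=
    Real.log_div_self_antitoneOn (show Real.exp 1 ≤ _ by linarith)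
      (show Real.exp 1 ≤ _ by linarith [hc.1]) hc.1.le
  have hB : Real.log t / t ≤ Real.log c / c :=
    Real.log_div_self_antitoneOn (show Real.exp 1 ≤ _ by linarith [hc.1])
      (show Real.exp 1 ≤ _ by linarith) hc.2.le
  rw [h2]
  exact ⟨mul_le_mul_of_nonneg_left hB h1.le, mul_le_mul_of_nonneg_left hA h1.le⟩

noncomputable def bs (n : ℕ) : ℝ :=
  ∑ b ∈ Finset.Icc 1 n, Real.log b / b - Real.log n ^ 2 / 2

lemma bs_succ (n : ℕ) : bs (n + 1) = bs n + (Real.log (n + 1) / (n + 1) -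
    (Real.log (n + 1) ^ 2 / 2 - Real.log n ^ 2 / 2)) := by
  rw [bs, bs, Finset.sum_Icc_succ_top (by omega)]
  push_cast
  ring

lemma exists_gam : ∃ g : ℝ, ∀ n : ℕ, 3 ≤ n → g ≤ bs n ∧ bs n - Real.log n / n ≤ g := by
  have hanti : Antitone (fun k : ℕ => bs (k + 3)) := by
    apply antitone_nat_of_succ_le
    intro k
    have h3 : (3 : ℝ) ≤ ((k + 3 : ℕ) : ℝ) := by push_cast; linarith [Nat.cast_nonneg (α := ℝ) k]
    have h := (mvt_log h3 (by linarith : ((k + 3 : ℕ) : ℝ) ≤ ((k + 3 : ℕ) : ℝ) + 1)).1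
    have h2 := bs_succ (k + 3)
    have e : k + 1 + 3 = k + 3 + 1 := by ring
    rw [e, h2]
    linarith
  have hmono : Monotone (fun k : ℕ => bs (k + 3) - Real.log ((k + 3 : ℕ) : ℝ) / ((k + 3 : ℕ) : ℝ)) := by
    apply monotone_nat_of_le_succ
    intro k
    have h3 : (3 : ℝ) ≤ ((k + 3 : ℕ) : ℝ) := by push_cast; linarith [Nat.cast_nonneg (α := ℝ) k]
    have h := (mvt_log h3 (by linarith : ((k + 3 : ℕ) : ℝ) ≤ ((k + 3 : ℕ) : ℝ) + 1)).2
    have h2 := bs_succ (k + 3)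
    have e : k + 1 + 3 = k + 3 + 1 := by ring
    rw [e, h2]
    have e2 : (((k + 3 + 1 : ℕ)) : ℝ) = ((k + 3 : ℕ) : ℝ) + 1 := by push_cast; ring
    rw [e2]
    linarith
  have hnn : ∀ k : ℕ, 0 ≤ Real.log ((k + 3 : ℕ) : ℝ) / ((k + 3 : ℕ) : ℝ) := by
    intro k
    apply div_nonneg _ (Nat.cast_nonneg _)
    apply Real.log_nonneg
    push_cast; linarith [Nat.cast_nonneg (α := ℝ) k]
  have hcb : ∀ k j : ℕ, bs (k + 3) - Real.log ((k + 3 : ℕ) : ℝ) / ((k + 3 : ℕ) : ℝ) ≤ bs (j + 3) := by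
    intro k j
    rcases le_total k j with h | h
    · have h1 := hmono h
      have h2 := hnn j
      simp only at h1
      linarith
    · have h1 := hanti h
      have h2 := hnn k
      simp only at h1
      linarith
  refine ⟨⨅ k : ℕ, bs (k + 3), fun n hn => ?_⟩
  obtain ⟨k, rfl⟩ : ∃ k, n = k + 3 := ⟨n - 3, by omega⟩
  constructor
  · exact ciInf_le ⟨_, by rintro _ ⟨j, rfl⟩; exact hcb 0 j⟩ k
  · exact le_ciInf (hcb k)

lemma sum_log_div : ∃ g K : ℝ, 0 < K ∧ ∀ v : ℝ, 1 ≤ v →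
    |∑ b ∈ Finset.Icc 1 ⌊v⌋₊, Real.log b / b - (Real.log v ^ 2 / 2 + g)| ≤
      K * (1 + Real.log v) / v := by
  obtain ⟨g, hg⟩ := exists_gam
  refine ⟨g, 10 + 3 * |g|, by positivity, fun v hv => ?_⟩
  have hl : 0 ≤ Real.log v := Real.log_nonneg hv
  have hv0 : 0 < v := by linarith
  by_cases h3 : 3 ≤ v
  · have hn : 3 ≤ ⌊v⌋₊ := Nat.le_floor (by exact_mod_cast h3)
    have hn0 : (3 : ℝ) ≤ (⌊v⌋₊ : ℝ) := by exact_mod_cast hn
    have h4 : (⌊v⌋₊ : ℝ) ≤ v := Nat.floor_le (by linarith)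
    have h5 : v < (⌊v⌋₊ : ℝ) + 1 := Nat.lt_floor_add_one v
    have h6 := hg _ hn
    have h7 := mvt_log hn0 h4
    rw [bs] at h6
    have hln : 0 ≤ Real.log (⌊v⌋₊ : ℝ) := Real.log_nonneg (by linarith)
    have hlv : Real.log (⌊v⌋₊ : ℝ) ≤ Real.log v := Real.log_le_log (by linarith) h4
    have h8 : Real.log (⌊v⌋₊ : ℝ) / ⌊v⌋₊ ≤ 2 * Real.log v / v := by
      rw [div_le_div_iff₀ (by linarith) hv0]
      have : v ≤ 2 * ⌊v⌋₊ := by linarith
      calc Real.log (⌊v⌋₊ : ℝ) * v ≤ Real.log v * (2 * ⌊v⌋₊) := by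
            apply mul_le_mul hlv this hv0.le hl
        _ = _ := by ring
    have h9 : 0 ≤ Real.log v / v := by positivity
    have h10 : 0 ≤ (v - ⌊v⌋₊) * (Real.log v / v) := mul_nonneg (by linarith) h9
    have h11 : (v - ⌊v⌋₊) * (Real.log (⌊v⌋₊ : ℝ) / ⌊v⌋₊) ≤ Real.log (⌊v⌋₊ : ℝ) / ⌊v⌋₊ := by
      have : 0 ≤ Real.log (⌊v⌋₊ : ℝ) / ⌊v⌋₊ := div_nonneg hln (by linarith)
      nlinarith
    have h12 : 4 * (Real.log v / v) ≤ (10 + 3 * |g|) * (1 + Real.log v) / v := by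
      rw [mul_div_assoc]
      have h13 : Real.log v / v ≤ (1 + Real.log v) / v := by gcongr; linarith
      have h14 : 0 ≤ (1 + Real.log v) / v := by positivity
      have h15 := abs_nonneg g
      nlinarith
    have h13 : 2 * Real.log v / v = 2 * (Real.log v / v) := by ring
    rw [abs_le]
    constructor
    · linarith [h6.1, h6.2, h7.1, h7.2]
    · linarith [h6.1, h6.2, h7.1, h7.2]
  · rw [not_le] at h3
    have hlog3 : Real.log v ≤ 2 := by
      have := Real.log_le_sub_one_of_pos hv0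
      linarith
    have hle : (10 + 3 * |g|) / 3 ≤ (10 + 3 * |g|) * (1 + Real.log v) / v := by
      rw [div_le_div_iff₀ (by norm_num) hv0]
      have : v ≤ (1 + Real.log v) * 3 := by linarith
      have h15 := abs_nonneg g
      nlinarith
    refine le_trans ?_ hle
    have hT : 0 ≤ ∑ b ∈ Finset.Icc 1 ⌊v⌋₊, Real.log b / b ∧
        ∑ b ∈ Finset.Icc 1 ⌊v⌋₊, Real.log b / b ≤ 1 := by
      have hn : ⌊v⌋₊ < 3 := by
        rw [Nat.floor_lt hv0.le]; exact_mod_cast h3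
      have hn1 : 1 ≤ ⌊v⌋₊ := (Nat.one_le_floor_iff v).mpr hv
      have h2 : Real.log 2 ≤ 1 := by
        have := Real.log_two_lt_d9
        linarith
      have h20 : 0 ≤ Real.log 2 := Real.log_nonneg (by norm_num)
      generalize ⌊v⌋₊ = n at *
      interval_cases n
      · simp
      · rw [Finset.sum_Icc_succ_top (by omega)]
        simp
        constructor <;> linarith
    have h16 : Real.log v ^ 2 / 2 ≤ 2 := by nlinarith
    have h17 : 0 ≤ Real.log v ^ 2 / 2 := by positivity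
    have h18 := neg_abs_le g
    have h19 := le_abs_self g
    rw [abs_le]
    constructor <;> linarith [hT.1, hT.2]

end Pool.Agent.Lib.MP_6bc78b_nt.MS.L.H61
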