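import Pool.Agent.Lib.MP_6bc78b_nt.MS.L.H61.Hyper
import Pool.Agent.Lib.MP_6bc78b_nt.MS.L.H61.LogDiv

/-! Module SLL of board ms3a_modules: the summatory function of `Λ * log` (unbalanced hyperbola
method, `u = x^(2/3)`, `v = x^(1/3)`; everything in terms of `y = x^(1/60)`). -/

set_option autoImplicit false

open Finset ArithmeticFunction

namespace Pool.Agent.Lib.MP_6bc78b_nt.MS.L.H61

lemma pw {y : ℝ} (hy : 0 ≤ y) (n m : ℕ) (r : ℝ) (h : (n : ℝ) * r = m) :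
    (y ^ n) ^ r = y ^ m := by
  rw [← Real.rpow_natCast, ← Real.rpow_mul hy, h, Real.rpow_natCast]

lemma La_nonneg (n : ℕ) : 0 ≤ La n := vonMangoldt_nonneg

lemma lg_nonneg (n : ℕ) : 0 ≤ lg n := by
  rw [lg, log_apply]
  exact Real.log_natCast_nonneg n

/-- First sum. -/
lemma first_sum {x u : ℝ} (hu : 1 ≤ u) (hux : u ≤ x) :
    |∑ a ∈ Finset.Icc 1 ⌊u⌋₊, La a * ∑ b ∈ Finset.Icc 1 ⌊x / a⌋₊, lg b -
      x * ((Real.log x - 1) * ∑ n ∈ Finset.Icc 1 ⌊u⌋₊, w1 n -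
        ∑ n ∈ Finset.Icc 1 ⌊u⌋₊, w1 n * Real.log n)| ≤
      (1 + Real.log x) * ∑ a ∈ Finset.Icc 1 ⌊u⌋₊, La a := by
  have hx : 1 ≤ x := le_trans hu hux
  rw [Finset.mul_sum, ← Finset.sum_sub_distrib, Finset.mul_sum, ← Finset.sum_sub_distrib,
    Finset.mul_sum]
  refine le_trans (Finset.abs_sum_le_sum_abs _ _) (Finset.sum_le_sum fun a ha => ?_)
  rw [mem_Icc] at ha
  have ha0 : (1 : ℝ) ≤ a := by exact_mod_cast ha.1
  have hau : (a : ℝ) ≤ u := le_trans (by exact_mod_cast ha.2) (Nat.floor_le (by linarith))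
  have hxa : 1 ≤ x / a := by rw [le_div_iff₀ (by linarith)]; linarith
  have h1 := sum_log_asymp hxa
  have h2 : Real.log (x / a) = Real.log x - Real.log a :=
    Real.log_div (by linarith) (by linarith)
  have hla : 0 ≤ Real.log a := Real.log_nonneg ha0
  have h3 : La a * ∑ b ∈ Finset.Icc 1 ⌊x / a⌋₊, lg b -
      x * ((Real.log x - 1) * w1 a - w1 a * Real.log a) =
      La a * (∑ b ∈ Finset.Icc 1 ⌊x / a⌋₊, Real.log b -
        (x / a * Real.log (x / a) - x / a)) := by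
    rw [h2]
    simp only [lg, log_apply, w1, La]
    ring
  rw [h3, abs_mul, abs_of_nonneg (La_nonneg a), mul_comm]
  apply mul_le_mul_of_nonneg_right _ (La_nonneg a)
  linarith

/-- Second sum. -/
lemma second_sum {C1 : ℝ} (hC1 : 0 < C1) (hpsi : ∀ x : ℝ, 0 < x →
    |Chebyshev.psi x - x| ≤ C1 * x ^ (4 / 5 : ℝ)) {x v : ℝ} (hv : 1 ≤ v) (hvx : v ≤ x) :
    |∑ b ∈ Finset.Icc 1 ⌊v⌋₊, lg b * ∑ a ∈ Finset.Icc 1 ⌊x / b⌋₊, La a -
      x * ∑ b ∈ Finset.Icc 1 ⌊v⌋₊, Real.log b / b| ≤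
      C1 * x ^ (4 / 5 : ℝ) * v ^ (1 / 5 : ℝ) * ∑ b ∈ Finset.Icc 1 ⌊v⌋₊, Real.log b / b := by
  have hx : 1 ≤ x := le_trans hv hvx
  rw [Finset.mul_sum, ← Finset.sum_sub_distrib, Finset.mul_sum]
  refine le_trans (Finset.abs_sum_le_sum_abs _ _) (Finset.sum_le_sum fun b hb => ?_)
  rw [mem_Icc] at hb
  have hb0 : (1 : ℝ) ≤ b := by exact_mod_cast hb.1
  have hbv : (b : ℝ) ≤ v := le_trans (by exact_mod_cast hb.2) (Nat.floor_le (by linarith))
  have hlb : 0 ≤ Real.log b := Real.log_nonneg hb0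
  have h0 : ∑ a ∈ Finset.Icc 1 ⌊x / b⌋₊, La a = Chebyshev.psi (x / b) := by
    rw [Chebyshev.psi]
    apply Finset.sum_congr _ (fun _ _ => rfl)
    ext k; simp only [mem_Icc, mem_Ioc]; omega
  have h1 := hpsi (x / b) (by positivity)
  have h3 : lg b * ∑ a ∈ Finset.Icc 1 ⌊x / b⌋₊, La a - x * (Real.log b / b) =
      Real.log b * (Chebyshev.psi (x / b) - x / b) := by
    rw [h0]
    simp only [lg, log_apply]
    ring
  rw [h3, abs_mul, abs_of_nonneg hlb]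
  have h4 : (x / b) ^ (4 / 5 : ℝ) ≤ x ^ (4 / 5 : ℝ) * v ^ (1 / 5 : ℝ) * (1 / b) := by
    rw [Real.div_rpow (by linarith) (by linarith)]
    have h5 : (1 : ℝ) / (b : ℝ) ^ (4 / 5 : ℝ) = (b : ℝ) ^ (1 / 5 : ℝ) * (1 / b) := by
      have h6 : (b : ℝ) ^ (1 / 5 : ℝ) * (b : ℝ) ^ (4 / 5 : ℝ) = b := by
        rw [← Real.rpow_add (by linarith)]; norm_num
      have h7 : (b : ℝ) ^ (4 / 5 : ℝ) ≠ 0 := (Real.rpow_pos_of_pos (by linarith) _).ne'
      have h8 : (b : ℝ) ≠ 0 := by linarith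
      field_simp
      linarith
    have h9 : (b : ℝ) ^ (1 / 5 : ℝ) ≤ v ^ (1 / 5 : ℝ) :=
      Real.rpow_le_rpow (by linarith) hbv (by norm_num)
    calc x ^ (4 / 5 : ℝ) / (b : ℝ) ^ (4 / 5 : ℝ) = x ^ (4 / 5 : ℝ) * (1 / (b : ℝ) ^ (4 / 5 : ℝ)) := by
          ring
      _ = x ^ (4 / 5 : ℝ) * ((b : ℝ) ^ (1 / 5 : ℝ) * (1 / b)) := by rw [h5]
      _ ≤ x ^ (4 / 5 : ℝ) * (v ^ (1 / 5 : ℝ) * (1 / b)) := by gcongr
      _ = _ := by ring
  calc Real.log b * |Chebyshev.psi (x / b) - x / b| ≤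
        Real.log b * (C1 * (x ^ (4 / 5 : ℝ) * v ^ (1 / 5 : ℝ) * (1 / b))) := by
        apply mul_le_mul_of_nonneg_left _ hlb
        exact le_trans h1 (mul_le_mul_of_nonneg_left h4 hC1.le)
    _ = _ := by ring

/-- Third term. -/
lemma third_sum {C1 : ℝ} (hC1 : 0 < C1) (hpsi : ∀ x : ℝ, 0 < x →
    |Chebyshev.psi x - x| ≤ C1 * x ^ (4 / 5 : ℝ)) {x u v : ℝ} (hu : 1 ≤ u) (hv : 1 ≤ v)
    (huv : u * v = x) :
    |(∑ a ∈ Finset.Icc 1 ⌊u⌋₊, La a) * (∑ b ∈ Finset.Icc 1 ⌊v⌋₊, lg b) -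
      x * (Real.log v - 1)| ≤
      C1 * u ^ (4 / 5 : ℝ) * (v * Real.log v) + u * (1 + Real.log v) := by
  have h0 : ∑ a ∈ Finset.Icc 1 ⌊u⌋₊, La a = Chebyshev.psi u := by
    rw [Chebyshev.psi]
    apply Finset.sum_congr _ (fun _ _ => rfl)
    ext k; simp only [mem_Icc, mem_Ioc]; omega
  have hS : ∑ b ∈ Finset.Icc 1 ⌊v⌋₊, lg b = ∑ b ∈ Finset.Icc 1 ⌊v⌋₊, Real.log b := by
    simp only [lg, log_apply]
  have h1 := hpsi u (by linarith)
  have h2 := sum_log_asymp hv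
  have hlv : 0 ≤ Real.log v := Real.log_nonneg hv
  have hS0 : 0 ≤ ∑ b ∈ Finset.Icc 1 ⌊v⌋₊, Real.log b :=
    Finset.sum_nonneg fun b _ => Real.log_natCast_nonneg b
  have hS1 : ∑ b ∈ Finset.Icc 1 ⌊v⌋₊, Real.log b ≤ v * Real.log v := by
    have : ∑ b ∈ Finset.Icc 1 ⌊v⌋₊, Real.log (b : ℝ) ≤ ∑ b ∈ Finset.Icc 1 ⌊v⌋₊, Real.log v := by
      apply Finset.sum_le_sum
      intro b hb
      rw [mem_Icc] at hb
      have hb0 : (1 : ℝ) ≤ b := by exact_mod_cast hb.1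
      have hbv : (b : ℝ) ≤ v := le_trans (by exact_mod_cast hb.2) (Nat.floor_le (by linarith))
      exact Real.log_le_log (by linarith) hbv
    rw [Finset.sum_const, Nat.card_Icc, Nat.add_sub_cancel, nsmul_eq_mul] at this
    exact le_trans this (mul_le_mul_of_nonneg_right (Nat.floor_le (by linarith)) hlv)
  rw [h0, hS]
  have h3 : Chebyshev.psi u * (∑ b ∈ Finset.Icc 1 ⌊v⌋₊, Real.log b) - x * (Real.log v - 1) =
      (Chebyshev.psi u - u) * (∑ b ∈ Finset.Icc 1 ⌊v⌋₊, Real.log b) +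
      u * (∑ b ∈ Finset.Icc 1 ⌊v⌋₊, Real.log b - (v * Real.log v - v)) := by
    rw [← huv]; ring
  rw [h3]
  refine le_trans (abs_add_le _ _) ?_
  rw [abs_mul, abs_mul, abs_of_nonneg hS0, abs_of_nonneg (by linarith : 0 ≤ u)]
  apply add_le_add
  · exact mul_le_mul h1 hS1 hS0 (by positivity)
  · exact mul_le_mul_of_nonneg_left h2 (by linarith)

lemma aux_tv {K3 g L y Tv Y : ℝ} (hK3 : 0 < K3) (hl : 0 ≤ L) (hl2 : 1 + 60 * L ≤ 60 * y)
    (hY : 1 ≤ Y) (h5 : |Tv - ((20 * L) ^ 2 / 2 + g)| ≤ K3 * (1 + 20 * L) / Y) :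
    Tv ≤ (1 + |g| + K3) * (3600 * y ^ 2) := by
  have h6 : K3 * (1 + 20 * L) / Y ≤ K3 * (1 + 60 * L) := by
    rw [div_le_iff₀ (by linarith)]
    have h8 : K3 * (1 + 20 * L) ≤ K3 * (1 + 60 * L) := by
      apply mul_le_mul_of_nonneg_left _ hK3.le; linarith
    have h7 : 0 ≤ K3 * (1 + 60 * L) := by positivity
    have h9 : K3 * (1 + 60 * L) * 1 ≤ K3 * (1 + 60 * L) * Y := mul_le_mul_of_nonneg_left hY h7
    linarith
  have h7 : Tv ≤ (20 * L) ^ 2 / 2 + g + K3 * (1 + 60 * L) := by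
    have := (abs_le.mp h5).2
    linarith
  have h8 : 1 + 60 * L ≤ (1 + 60 * L) ^ 2 := by nlinarith
  have h8' : 1 ≤ (1 + 60 * L) ^ 2 := by nlinarith
  have h9 : (1 + 60 * L) ^ 2 ≤ 3600 * y ^ 2 := by
    calc (1 + 60 * L) ^ 2 ≤ (60 * y) ^ 2 := pow_le_pow_left₀ (by positivity) hl2 2
      _ = _ := by ring
  have h10 : (20 * L) ^ 2 / 2 ≤ (1 + 60 * L) ^ 2 := by nlinarith
  have h11 : g ≤ |g| * (1 + 60 * L) ^ 2 := by
    have h13 : |g| * 1 ≤ |g| * (1 + 60 * L) ^ 2 := mul_le_mul_of_nonneg_left h8' (abs_nonneg g)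
    linarith [le_abs_self g]
  have h12 : K3 * (1 + 60 * L) ≤ K3 * (1 + 60 * L) ^ 2 := mul_le_mul_of_nonneg_left h8 hK3.le
  calc Tv ≤ (1 + |g| + K3) * (1 + 60 * L) ^ 2 := by
        have : (1 + |g| + K3) * (1 + 60 * L) ^ 2 = (1 + 60 * L) ^ 2 + |g| * (1 + 60 * L) ^ 2 +
          K3 * (1 + 60 * L) ^ 2 := by ring
        linarith
    _ ≤ _ := by
      apply mul_le_mul_of_nonneg_left h9
      positivity

lemma aux_psi {P z : ℝ} (hz : 1 ≤ z) (h : P ≤ (Real.log 4 + 4) * z) : P ≤ 6 * z := by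
  have h8 : Real.log 4 ≤ 2 := by
    have h1 : Real.log 4 = 2 * Real.log 2 := by
      rw [show (4 : ℝ) = 2 ^ 2 by norm_num, Real.log_pow]; norm_num
    have h2 := Real.log_two_lt_d9
    linarith
  have h9 : (Real.log 4 + 4) * z ≤ 6 * z := by
    apply mul_le_mul_of_nonneg_right _ (by linarith); linarith
  linarith

lemma sll_large {C1 A0 A1 C2 g K3 : ℝ} (hC1 : 0 < C1) (hpsi : ∀ x : ℝ, 0 < x →
    |Chebyshev.psi x - x| ≤ C1 * x ^ (4 / 5 : ℝ)) (hC2 : 0 < C2)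
    (hsla : ∀ x : ℝ, 1 ≤ x →
      |∑ n ∈ Finset.Icc 1 ⌊x⌋₊, w1 n - (Real.log x + A0)| ≤ C2 * x ^ (-(1 / 10) : ℝ) ∧
      |∑ n ∈ Finset.Icc 1 ⌊x⌋₊, w1 n * Real.log n - (Real.log x ^ 2 / 2 + A1)| ≤
        C2 * x ^ (-(1 / 10) : ℝ)) (hK3 : 0 < K3)
    (hld : ∀ v : ℝ, 1 ≤ v →
      |∑ b ∈ Finset.Icc 1 ⌊v⌋₊, Real.log b / b - (Real.log v ^ 2 / 2 + g)| ≤
        K3 * (1 + Real.log v) / v) {y : ℝ} (hy : 1 ≤ y) :
    |∑ n ∈ Finset.Icc 1 ⌊y ^ 60⌋₊, (La * lg) n -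
      y ^ 60 * ((60 * Real.log y) ^ 2 / 2 + (A0 - 1) * (60 * Real.log y) +
        (g - A1 - A0 + 1))| ≤
      (420 + 61 * C2 + 3600 * (1 + |g| + K3) * C1 + 60 * K3 + 60 * C1) * y ^ 57 := by
  have hy0 : 0 < y := by linarith
  have hl : 0 ≤ Real.log y := Real.log_nonneg hy
  have hl2 : 1 + 60 * Real.log y ≤ 60 * y := by
    have := Real.log_le_sub_one_of_pos hy0
    linarith
  have hp : ∀ n : ℕ, 1 ≤ y ^ n := fun n => one_le_pow₀ hy
  have hpp : ∀ m n : ℕ, m ≤ n → y ^ m ≤ y ^ n := fun m n h => pow_le_pow_right₀ hy h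
  have hx1 := hp 60
  have hu := hp 40
  have hv := hp 20
  have huv : y ^ 40 * y ^ 20 = y ^ 60 := by ring
  have hlx : Real.log (y ^ 60) = 60 * Real.log y := by rw [Real.log_pow]; norm_num
  have hlu : Real.log (y ^ 40) = 40 * Real.log y := by rw [Real.log_pow]; norm_num
  have hlv : Real.log (y ^ 20) = 20 * Real.log y := by rw [Real.log_pow]; norm_num
  have h1 := first_sum (x := y ^ 60) hu (hpp 40 60 (by norm_num))
  have h2 := second_sum hC1 hpsi (x := y ^ 60) hv (hpp 20 60 (by norm_num))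
  have h3 := third_sum hC1 hpsi hu hv huv
  have h4 := hsla (y ^ 40) hu
  have h5 := hld (y ^ 20) hv
  rw [hyper La lg (y ^ 60) (y ^ 40) (y ^ 20) hu hv huv]
  rw [hlx] at h1
  rw [hlv] at h3 h5
  rw [hlu] at h4
  rw [pw hy0.le 60 48 _ (by norm_num), pw hy0.le 20 4 _ (by norm_num)] at h2
  rw [pw hy0.le 40 32 _ (by norm_num)] at h3
  have hneg : (y ^ 40) ^ (-(1 / 10) : ℝ) = 1 / y ^ 4 := by
    rw [Real.rpow_neg (by positivity), pw hy0.le 40 4 _ (by norm_num), one_div]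
  rw [hneg] at h4
  have hpsiu : ∑ a ∈ Finset.Icc 1 ⌊y ^ 40⌋₊, La a ≤ 6 * y ^ 40 := by
    have h6 := Chebyshev.psi_le_const_mul_self (x := y ^ 40) (by positivity)
    have h7 : ∑ a ∈ Finset.Icc 1 ⌊y ^ 40⌋₊, La a = Chebyshev.psi (y ^ 40) := by
      rw [Chebyshev.psi]
      apply Finset.sum_congr _ (fun _ _ => rfl)
      ext k; simp only [mem_Icc, mem_Ioc]; omega
    rw [h7]
    exact aux_psi hu h6
  generalize hF1 : ∑ a ∈ Finset.Icc 1 ⌊y ^ 40⌋₊, La a * ∑ b ∈ Finset.Icc 1 ⌊y ^ 60 / a⌋₊, lg b = F1 at h1 ⊢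
  generalize hF2 : ∑ b ∈ Finset.Icc 1 ⌊y ^ 20⌋₊, lg b * ∑ a ∈ Finset.Icc 1 ⌊y ^ 60 / b⌋₊, La a = F2 at h2 ⊢
  generalize hF3 : (∑ a ∈ Finset.Icc 1 ⌊y ^ 40⌋₊, La a) * (∑ b ∈ Finset.Icc 1 ⌊y ^ 20⌋₊, lg b) = F3 at h3 ⊢
  generalize ∑ a ∈ Finset.Icc 1 ⌊y ^ 40⌋₊, La a = Ps at h1 hpsiu
  generalize ∑ n ∈ Finset.Icc 1 ⌊y ^ 40⌋₊, w1 n * Real.log n = Wl at h1 h4
  generalize ∑ n ∈ Finset.Icc 1 ⌊y ^ 40⌋₊, w1 n = W at h1 h4
  generalize ∑ b ∈ Finset.Icc 1 ⌊y ^ 20⌋₊, Real.log (b : ℝ) / b = Tv at h2 h5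
  obtain ⟨h4a, h4b⟩ := h4
  generalize hL : Real.log y = L at *
  -- the bound of Tv
  have hTv : Tv ≤ (1 + |g| + K3) * (3600 * y ^ 2) := aux_tv hK3 hl hl2 hv h5
  -- error 1a
  have e1a : (1 + 60 * L) * Ps ≤ 360 * y ^ 57 := by
    calc (1 + 60 * L) * Ps ≤ (60 * y) * (6 * y ^ 40) := by
          apply mul_le_mul hl2 hpsiu _ (by positivity)
          by_contra hneg
          rw [not_le] at hneg
          have : (1 + 60 * L) * Ps < 0 := mul_neg_of_pos_of_neg (by linarith) hneg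
          linarith [abs_nonneg (F1 - y ^ 60 * ((60 * L - 1) * W - Wl))]
      _ = 360 * y ^ 41 := by ring
      _ ≤ 360 * y ^ 57 := by linarith [hpp 41 57 (by norm_num)]
  -- error 1b
  have e1b : |y ^ 60 * ((60 * L - 1) * W - Wl) -
      y ^ 60 * ((60 * L - 1) * (40 * L + A0) - ((40 * L) ^ 2 / 2 + A1))| ≤
      61 * C2 * y ^ 57 := by
    have h6 : y ^ 60 * ((60 * L - 1) * W - Wl) -
      y ^ 60 * ((60 * L - 1) * (40 * L + A0) - ((40 * L) ^ 2 / 2 + A1)) =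
      y ^ 60 * ((60 * L - 1) * (W - (40 * L + A0)) - (Wl - ((40 * L) ^ 2 / 2 + A1))) := by ring
    rw [h6, abs_mul, abs_of_nonneg (by positivity)]
    have h7 : |(60 * L - 1) * (W - (40 * L + A0)) - (Wl - ((40 * L) ^ 2 / 2 + A1))| ≤
        (60 * y) * (C2 * (1 / y ^ 4)) + C2 * (1 / y ^ 4) := by
      refine le_trans (abs_sub _ _) (add_le_add ?_ h4b)
      rw [abs_mul]
      apply mul_le_mul _ h4a (abs_nonneg _) (by positivity)
      rw [abs_le]; constructor <;> linarith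
    calc y ^ 60 * |(60 * L - 1) * (W - (40 * L + A0)) - (Wl - ((40 * L) ^ 2 / 2 + A1))| ≤
          y ^ 60 * ((60 * y) * (C2 * (1 / y ^ 4)) + C2 * (1 / y ^ 4)) :=
          mul_le_mul_of_nonneg_left h7 (by positivity)
      _ = 60 * C2 * y ^ 57 + C2 * y ^ 56 := by field_simp
      _ ≤ 61 * C2 * y ^ 57 := by
        have h8 : C2 * y ^ 56 ≤ C2 * y ^ 57 :=
          mul_le_mul_of_nonneg_left (hpp 56 57 (by norm_num)) hC2.le
        linarith
  -- error 2a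
  have e2a : C1 * y ^ 48 * y ^ 4 * Tv ≤ 3600 * (1 + |g| + K3) * C1 * y ^ 57 := by
    calc C1 * y ^ 48 * y ^ 4 * Tv ≤ C1 * y ^ 48 * y ^ 4 * ((1 + |g| + K3) * (3600 * y ^ 2)) :=
          mul_le_mul_of_nonneg_left hTv (by positivity)
      _ = 3600 * (1 + |g| + K3) * C1 * y ^ 54 := by ring
      _ ≤ _ := by
        apply mul_le_mul_of_nonneg_left (hpp 54 57 (by norm_num))
        positivity
  -- error 2b
  have e2b : |y ^ 60 * Tv - y ^ 60 * ((20 * L) ^ 2 / 2 + g)| ≤ 60 * K3 * y ^ 57 := by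
    rw [← mul_sub, abs_mul, abs_of_nonneg (by positivity)]
    calc y ^ 60 * |Tv - ((20 * L) ^ 2 / 2 + g)| ≤ y ^ 60 * (K3 * (60 * y) / y ^ 20) := by
          apply mul_le_mul_of_nonneg_left _ (by positivity)
          refine le_trans h5 ?_
          gcongr
          linarith
      _ = 60 * K3 * y ^ 41 := by field_simp
      _ ≤ _ := by
        apply mul_le_mul_of_nonneg_left (hpp 41 57 (by norm_num))
        positivity
  -- error 3
  have e3 : C1 * y ^ 32 * (y ^ 20 * (20 * L)) + y ^ 40 * (1 + 20 * L) ≤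
      (60 * C1 + 60) * y ^ 57 := by
    have h6 : C1 * y ^ 32 * (y ^ 20 * (20 * L)) ≤ 60 * C1 * y ^ 57 := by
      calc C1 * y ^ 32 * (y ^ 20 * (20 * L)) ≤ C1 * y ^ 32 * (y ^ 20 * (60 * y)) :=
            mul_le_mul_of_nonneg_left (mul_le_mul_of_nonneg_left (by linarith) (by positivity))
              (by positivity)
        _ = 60 * C1 * y ^ 53 := by ring
        _ ≤ _ := by
          apply mul_le_mul_of_nonneg_left (hpp 53 57 (by norm_num))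
          positivity
    have h7 : y ^ 40 * (1 + 20 * L) ≤ 60 * y ^ 57 := by
      calc y ^ 40 * (1 + 20 * L) ≤ y ^ 40 * (60 * y) := by gcongr; linarith
        _ = 60 * y ^ 41 := by ring
        _ ≤ _ := by linarith [hpp 41 57 (by norm_num)]
    linarith
  -- assembly
  have hfin : F1 + F2 - F3 -
      y ^ 60 * ((60 * L) ^ 2 / 2 + (A0 - 1) * (60 * L) + (g - A1 - A0 + 1)) =
      (F1 - y ^ 60 * ((60 * L - 1) * W - Wl)) +
      (y ^ 60 * ((60 * L - 1) * W - Wl) -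
        y ^ 60 * ((60 * L - 1) * (40 * L + A0) - ((40 * L) ^ 2 / 2 + A1))) +
      (F2 - y ^ 60 * Tv) + (y ^ 60 * Tv - y ^ 60 * ((20 * L) ^ 2 / 2 + g)) -
      (F3 - y ^ 60 * (20 * L - 1)) := by ring
  rw [hfin]
  have t1 := abs_le.mp h1
  have t2 := abs_le.mp e1b
  have t3 := abs_le.mp h2
  have t4 := abs_le.mp e2b
  have t5 := abs_le.mp h3
  rw [abs_le]
  constructor
  · linarith [t1.1, t2.1, t3.1, t4.1, t5.2]
  · linarith [t1.2, t2.2, t3.2, t4.2, t5.1]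

lemma small_x {κ1 κ0 x : ℝ} (hx : 0 < x) (hx1 : x < 1) :
    |x * (PL κ1 κ0).eval (Real.log x)| ≤ (800 + 40 * |κ1 - 1| + |κ0 - κ1 + 1|) *
      x ^ (19 / 20 : ℝ) := by
  have hl : Real.log x < 0 := Real.log_neg hx hx1
  -- `|log x| ≤ 40 x^(-1/40)`
  set z : ℝ := x ^ (1 / 40 : ℝ) with hz
  have hz0 : 0 < z := Real.rpow_pos_of_pos hx _
  have hz1 : z ≤ 1 := Real.rpow_le_one hx.le hx1.le (by norm_num)
  have hxz : x = z ^ 40 := by
    rw [hz, ← Real.rpow_natCast, ← Real.rpow_mul hx.le]; norm_num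
  have hlx : Real.log x = 40 * Real.log z := by
    conv_lhs => rw [hxz]
    rw [Real.log_pow]; norm_num
  have h1 : -Real.log z ≤ 1 / z := by
    have := Real.log_le_sub_one_of_pos (x := 1 / z) (by positivity)
    rw [one_div, Real.log_inv] at this
    rw [one_div]
    linarith
  have hlz : Real.log z ≤ 0 := Real.log_nonpos hz0.le hz1
  have h2 : |Real.log z| * z ≤ 1 := by
    rw [abs_of_nonpos hlz]
    calc -Real.log z * z ≤ 1 / z * z := mul_le_mul_of_nonneg_right h1 hz0.le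
      _ = 1 := by field_simp
  have h19 : x ^ (19 / 20 : ℝ) = z ^ 38 := by
    rw [hxz, pw hz0.le 40 38 _ (by norm_num)]
  have hev : (PL κ1 κ0).eval (Real.log x) = Real.log x ^ 2 / 2 + (κ1 - 1) * Real.log x +
      (κ0 - κ1 + 1) := by
    simp [PL]
    ring
  have h3 : |Real.log x| = 40 * |Real.log z| := by
    rw [hlx, abs_mul]; norm_num
  rw [hev, h19, abs_mul, abs_of_pos hx]
  have h4 : |Real.log x ^ 2 / 2 + (κ1 - 1) * Real.log x + (κ0 - κ1 + 1)| ≤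
      |Real.log x| ^ 2 / 2 + |κ1 - 1| * |Real.log x| + |κ0 - κ1 + 1| := by
    refine le_trans (abs_add_le _ _) (add_le_add_left ?_ _ |>.trans_eq rfl)
    refine le_trans (abs_add_le _ _) ?_
    rw [abs_mul, abs_div, abs_pow]
    norm_num
  rw [h3] at h4
  have h5 : x * |Real.log x ^ 2 / 2 + (κ1 - 1) * Real.log x + (κ0 - κ1 + 1)| ≤
      z ^ 38 * (800 * (|Real.log z| * z) ^ 2 + 40 * |κ1 - 1| * (z * (|Real.log z| * z)) +
        |κ0 - κ1 + 1| * z ^ 2) := by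
    calc _ ≤ x * ((40 * |Real.log z|) ^ 2 / 2 + |κ1 - 1| * (40 * |Real.log z|) +
          |κ0 - κ1 + 1|) := mul_le_mul_of_nonneg_left h4 hx.le
      _ = _ := by rw [hxz]; ring
  refine le_trans h5 ?_
  rw [mul_comm]
  apply mul_le_mul_of_nonneg_right _ (by positivity)
  have h6 : (|Real.log z| * z) ^ 2 ≤ 1 := pow_le_one₀ (by positivity) h2
  have h7 : z * (|Real.log z| * z) ≤ 1 := mul_le_one₀ hz1 (by positivity) h2
  have h8 : z ^ 2 ≤ 1 := pow_le_one₀ hz0.le hz1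
  have h9 : 40 * |κ1 - 1| * (z * (|Real.log z| * z)) ≤ 40 * |κ1 - 1| * 1 :=
    mul_le_mul_of_nonneg_left h7 (by positivity)
  have h10 : |κ0 - κ1 + 1| * z ^ 2 ≤ |κ0 - κ1 + 1| * 1 :=
    mul_le_mul_of_nonneg_left h8 (by positivity)
  linarith

lemma growth (n : ℕ) : |(La * lg) n| ≤ 1 * (n : ℝ) ^ 2 := by
  rcases Nat.eq_zero_or_pos n with rfl | hn
  · simp
  have hn0 : (1 : ℝ) ≤ n := by exact_mod_cast hn
  have hl : 0 ≤ Real.log n := Real.log_nonneg hn0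
  have hl2 : Real.log n ≤ n := by
    have := Real.log_le_sub_one_of_pos (x := (n : ℝ)) (by linarith)
    linarith
  rw [mul_apply, abs_of_nonneg (Finset.sum_nonneg fun x _ => mul_nonneg (La_nonneg _) (lg_nonneg _))]
  have h1 : ∑ x ∈ n.divisorsAntidiagonal, La x.1 * lg x.2 ≤
      ∑ x ∈ n.divisorsAntidiagonal, La x.1 * Real.log n := by
    apply Finset.sum_le_sum
    intro x hx
    apply mul_le_mul_of_nonneg_left _ (La_nonneg _)
    rw [Nat.mem_divisorsAntidiagonal] at hx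
    have hx2 : 0 < x.2 := Nat.pos_of_ne_zero (by rintro h; rw [h] at hx; simp at hx; omega)
    have hle : x.2 ≤ n := Nat.le_of_dvd hn ⟨x.1, by rw [mul_comm]; exact hx.1.symm⟩
    rw [lg, log_apply]
    exact Real.log_le_log (by exact_mod_cast hx2) (by exact_mod_cast hle)
  have h2 : ∑ x ∈ n.divisorsAntidiagonal, La x.1 = Real.log n := by
    exact (Nat.sum_divisorsAntidiagonal (fun a _ => La a)).trans vonMangoldt_sum
  rw [← Finset.sum_mul, h2] at h1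
  nlinarith

theorem sll (h : PsiStatement) (h2 : SlaStatement) : SllStatement := by
  obtain ⟨C1, hC1, hpsi⟩ := h
  obtain ⟨A0, A1, C2, hC2, hsla⟩ := h2
  obtain ⟨g, K3, hK3, hld⟩ := sum_log_div
  set Ka : ℝ := 420 + 61 * C2 + 3600 * (1 + |g| + K3) * C1 + 60 * K3 + 60 * C1 with hKa
  set Kb : ℝ := 800 + 40 * |A0 - 1| + |(g - A1) - A0 + 1| with hKb
  have hKa0 : 0 ≤ Ka := by positivity
  have hKb0 : 0 ≤ Kb := by positivity
  refine ⟨A0, g - A1, Ka + Kb, by simp, ⟨1, growth⟩, fun x hx => ?_⟩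
  by_cases hx1 : x < 1
  · have hf : ⌊x⌋₊ = 0 := Nat.floor_eq_zero.mpr hx1
    rw [hf]
    simp only [Finset.Icc_eq_empty_of_lt (show (0 : ℕ) < 1 by norm_num), Finset.sum_empty,
      zero_sub, abs_neg]
    refine le_trans (small_x hx hx1) ?_
    apply mul_le_mul_of_nonneg_right _ (Real.rpow_nonneg hx.le _)
    linarith
  · rw [not_lt] at hx1
    set y : ℝ := x ^ (1 / 60 : ℝ) with hy
    have hy1 : 1 ≤ y := Real.one_le_rpow hx1 (by norm_num)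
    have hxy : x = y ^ 60 := by
      rw [hy, ← Real.rpow_natCast, ← Real.rpow_mul hx.le]; norm_num
    have hlx : Real.log x = 60 * Real.log y := by
      conv_lhs => rw [hxy]
      rw [Real.log_pow]; norm_num
    have h19 : x ^ (19 / 20 : ℝ) = y ^ 57 := by
      rw [hxy, pw (by linarith) 60 57 _ (by norm_num)]
    have hm := sll_large hC1 hpsi hC2 hsla hK3 hld hy1
    have hev : (PL A0 (g - A1)).eval (Real.log x) = (60 * Real.log y) ^ 2 / 2 +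
        (A0 - 1) * (60 * Real.log y) + (g - A1 - A0 + 1) := by
      rw [← hlx]
      simp [PL]
      ring
    rw [hev, h19]
    conv_lhs => rw [hxy]
    refine le_trans hm ?_
    apply mul_le_mul_of_nonneg_right _ (by positivity)
    linarith

end Pool.Agent.Lib.MP_6bc78b_nt.MS.L.H61
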