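import Pool.Agent.Lib.MP_6bc78b_nt.MS.L.Iface

/-! Hyperbola method and elementary sums of logarithms (for module SLL). -/

set_option autoImplicit false

open Finset ArithmeticFunction

namespace Pool.Agent.Lib.MP_6bc78b_nt.MS.L.H61

lemma floor_prod_le {u v x : ℝ} (hu : 0 ≤ u) (hv : 0 ≤ v) (huv : u * v = x) {a b : ℕ}
    (ha : a ≤ ⌊u⌋₊) (hb : b ≤ ⌊v⌋₊) : a * b ≤ ⌊x⌋₊ := by
  apply Nat.le_floor
  have h1 : (a : ℝ) ≤ u := le_trans (by exact_mod_cast ha) (Nat.floor_le hu)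
  have h2 : (b : ℝ) ≤ v := le_trans (by exact_mod_cast hb) (Nat.floor_le hv)
  rw [Nat.cast_mul, ← huv]
  exact mul_le_mul h1 h2 (Nat.cast_nonneg b) hu

lemma floor_prod_lt {u v x : ℝ} (hu : 0 ≤ u) (hv : 0 ≤ v) (huv : u * v = x) {a b : ℕ}
    (ha : ¬ a ≤ ⌊u⌋₊) (hb : ¬ b ≤ ⌊v⌋₊) : ¬ a * b ≤ ⌊x⌋₊ := by
  rw [not_le] at *
  have h1 : u < a := Nat.lt_of_floor_lt ha
  have h2 : v < b := Nat.lt_of_floor_lt hb
  rw [Nat.floor_lt (by rw [← huv]; positivity), Nat.cast_mul, ← huv]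
  exact mul_lt_mul'' h1 h2 hu hv

/-- Hyperbola method. -/
lemma hyper (f g : ArithmeticFunction ℝ) (x u v : ℝ) (hu : 1 ≤ u) (hv : 1 ≤ v)
    (huv : u * v = x) :
    ∑ n ∈ Finset.Icc 1 ⌊x⌋₊, (f * g) n =
      ∑ a ∈ Finset.Icc 1 ⌊u⌋₊, f a * ∑ b ∈ Finset.Icc 1 ⌊x / a⌋₊, g b +
      ∑ b ∈ Finset.Icc 1 ⌊v⌋₊, g b * ∑ a ∈ Finset.Icc 1 ⌊x / b⌋₊, f a -
      (∑ a ∈ Finset.Icc 1 ⌊u⌋₊, f a) * (∑ b ∈ Finset.Icc 1 ⌊v⌋₊, g b) := by
  have hI : ∀ n : ℕ, Finset.Icc 1 n = Finset.Ioc 0 n := by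
    intro n; ext k; simp only [mem_Icc, mem_Ioc]; omega
  have hux : u ≤ x := by rw [← huv]; nlinarith
  have hvx : v ≤ x := by rw [← huv]; nlinarith
  have hUN : ⌊u⌋₊ ≤ ⌊x⌋₊ := Nat.floor_le_floor hux
  have hVN : ⌊v⌋₊ ≤ ⌊x⌋₊ := Nat.floor_le_floor hvx
  have hlhs : ∑ n ∈ Finset.Icc 1 ⌊x⌋₊, (f * g) n =
      ∑ a ∈ Finset.Icc 1 ⌊x⌋₊, ∑ b ∈ Finset.Icc 1 ⌊x⌋₊,
        if a * b ≤ ⌊x⌋₊ then f a * g b else 0 := by
    rw [hI, sum_Ioc_mul_eq_sum_prod_filter, Finset.sum_filter, Finset.sum_product]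
  have h1 : ∑ a ∈ Finset.Icc 1 ⌊u⌋₊, f a * ∑ b ∈ Finset.Icc 1 ⌊x / a⌋₊, g b =
      ∑ a ∈ Finset.Icc 1 ⌊x⌋₊, ∑ b ∈ Finset.Icc 1 ⌊x⌋₊,
        if a * b ≤ ⌊x⌋₊ ∧ a ≤ ⌊u⌋₊ then f a * g b else 0 := by
    have : Finset.Icc 1 ⌊u⌋₊ = (Finset.Icc 1 ⌊x⌋₊).filter (fun a => a ≤ ⌊u⌋₊) := by
      ext a; simp only [mem_filter, mem_Icc]; omega
    rw [this, Finset.sum_filter]
    apply Finset.sum_congr rfl
    intro a ha
    rw [mem_Icc] at ha
    split_ifs with hau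
    · rw [Finset.mul_sum, Nat.floor_div_natCast]
      have h2 : Finset.Icc 1 (⌊x⌋₊ / a) = (Finset.Icc 1 ⌊x⌋₊).filter (fun b => a * b ≤ ⌊x⌋₊) := by
        ext b
        simp only [mem_filter, mem_Icc]
        rw [Nat.le_div_iff_mul_le (by omega), mul_comm b a]
        constructor
        · rintro ⟨h3, h4⟩
          exact ⟨⟨h3, le_trans (Nat.le_mul_of_pos_left b (by omega)) h4⟩, h4⟩
        · rintro ⟨⟨h3, _⟩, h4⟩
          exact ⟨h3, h4⟩
      rw [h2, Finset.sum_filter]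
      apply Finset.sum_congr rfl
      intro b _
      simp [hau]
    · symm
      apply Finset.sum_eq_zero
      intro b _
      simp [hau]
  have h2 : ∑ b ∈ Finset.Icc 1 ⌊v⌋₊, g b * ∑ a ∈ Finset.Icc 1 ⌊x / b⌋₊, f a =
      ∑ a ∈ Finset.Icc 1 ⌊x⌋₊, ∑ b ∈ Finset.Icc 1 ⌊x⌋₊,
        if a * b ≤ ⌊x⌋₊ ∧ b ≤ ⌊v⌋₊ then f a * g b else 0 := by
    rw [Finset.sum_comm]
    have : Finset.Icc 1 ⌊v⌋₊ = (Finset.Icc 1 ⌊x⌋₊).filter (fun b => b ≤ ⌊v⌋₊) := by
      ext a; simp only [mem_filter, mem_Icc]; omega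
    rw [this, Finset.sum_filter]
    apply Finset.sum_congr rfl
    intro b hb
    rw [mem_Icc] at hb
    split_ifs with hbv
    · rw [Finset.mul_sum, Nat.floor_div_natCast]
      have h2 : Finset.Icc 1 (⌊x⌋₊ / b) = (Finset.Icc 1 ⌊x⌋₊).filter (fun a => a * b ≤ ⌊x⌋₊) := by
        ext a
        simp only [mem_filter, mem_Icc]
        rw [Nat.le_div_iff_mul_le (by omega)]
        constructor
        · rintro ⟨h3, h4⟩
          exact ⟨⟨h3, le_trans (Nat.le_mul_of_pos_right a (by omega)) h4⟩, h4⟩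
        · rintro ⟨⟨h3, _⟩, h4⟩
          exact ⟨h3, h4⟩
      rw [h2, Finset.sum_filter]
      apply Finset.sum_congr rfl
      intro a _
      simp [hbv, mul_comm]
    · symm
      apply Finset.sum_eq_zero
      intro a _
      simp [hbv]
  have h3 : (∑ a ∈ Finset.Icc 1 ⌊u⌋₊, f a) * (∑ b ∈ Finset.Icc 1 ⌊v⌋₊, g b) =
      ∑ a ∈ Finset.Icc 1 ⌊x⌋₊, ∑ b ∈ Finset.Icc 1 ⌊x⌋₊,
        if a ≤ ⌊u⌋₊ ∧ b ≤ ⌊v⌋₊ then f a * g b else 0 := by
    have hu' : Finset.Icc 1 ⌊u⌋₊ = (Finset.Icc 1 ⌊x⌋₊).filter (fun a => a ≤ ⌊u⌋₊) := by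
      ext a; simp only [mem_filter, mem_Icc]; omega
    have hv' : Finset.Icc 1 ⌊v⌋₊ = (Finset.Icc 1 ⌊x⌋₊).filter (fun a => a ≤ ⌊v⌋₊) := by
      ext a; simp only [mem_filter, mem_Icc]; omega
    rw [hu', hv', Finset.sum_filter, Finset.sum_filter, Finset.sum_mul_sum]
    apply Finset.sum_congr rfl
    intro a _
    apply Finset.sum_congr rfl
    intro b _
    by_cases ha : a ≤ ⌊u⌋₊ <;> by_cases hb : b ≤ ⌊v⌋₊ <;> simp [ha, hb]
  rw [hlhs, h1, h2, h3, ← Finset.sum_add_distrib, ← Finset.sum_sub_distrib]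
  apply Finset.sum_congr rfl
  intro a _
  rw [← Finset.sum_add_distrib, ← Finset.sum_sub_distrib]
  apply Finset.sum_congr rfl
  intro b _
  by_cases ha : a ≤ ⌊u⌋₊ <;> by_cases hb : b ≤ ⌊v⌋₊
  · have := floor_prod_le (by linarith) (by linarith) huv ha hb
    simp [ha, hb, this]
  · by_cases hab : a * b ≤ ⌊x⌋₊ <;> simp [ha, hb, hab]
  · by_cases hab : a * b ≤ ⌊x⌋₊ <;> simp [ha, hb, hab]
  · have := floor_prod_lt (by linarith) (by linarith) huv ha hb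
    simp [ha, hb, this]

lemma log_fact_lower {n : ℕ} (hn : 1 ≤ n) :
    (n : ℝ) * Real.log n - n ≤ Real.log (n.factorial : ℝ) := by
  have hn0 : (0 : ℝ) < n := by exact_mod_cast hn
  have h3 := Real.pow_div_factorial_le_exp (x := (n : ℝ)) hn0.le n
  have hf : (0 : ℝ) < (n.factorial : ℝ) := by exact_mod_cast n.factorial_pos
  have h5 := Real.log_le_log (by positivity) h3
  rw [Real.log_exp, Real.log_div (by positivity) hf.ne', Real.log_pow] at h5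
  linarith

lemma log_fact_upper {n : ℕ} (hn : 1 ≤ n) :
    Real.log (n.factorial : ℝ) ≤ (n : ℝ) * Real.log n - n + 1 + Real.log n := by
  induction n, hn using Nat.le_induction with
  | base => simp
  | succ n hn ih =>
    have hn0 : (0 : ℝ) < n := by exact_mod_cast hn
    have hn1 : (0 : ℝ) < (n : ℝ) + 1 := by linarith
    rw [Nat.factorial_succ, Nat.cast_mul, Real.log_mul (by positivity) (by positivity)]
    push_cast
    have h1 : Real.log ((n : ℝ) / (n + 1)) ≤ (n : ℝ) / (n + 1) - 1 :=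
      Real.log_le_sub_one_of_pos (by positivity)
    rw [Real.log_div (by positivity) (by positivity)] at h1
    have h2 : ((n : ℝ) + 1) * (Real.log n - Real.log (n + 1)) ≤ -1 := by
      calc ((n : ℝ) + 1) * (Real.log n - Real.log (n + 1)) ≤ (n + 1) * ((n : ℝ) / (n + 1) - 1) :=
            mul_le_mul_of_nonneg_left h1 hn1.le
        _ = -1 := by field_simp; ring
    nlinarith

lemma sum_log_eq (n : ℕ) : ∑ b ∈ Finset.Icc 1 n, Real.log b = Real.log (n.factorial : ℝ) := by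
  induction n with
  | zero => simp
  | succ n ih =>
    rw [Finset.sum_Icc_succ_top (by omega), ih, Nat.factorial_succ, Nat.cast_mul,
      Real.log_mul (by positivity) (by positivity), add_comm]

/-- The function `t log t - t`. -/
lemma xlogx_mono {n v : ℝ} (hn : 1 ≤ n) (hnv : n ≤ v) :
    n * Real.log n - n ≤ v * Real.log v - v ∧
    v * Real.log v - v ≤ n * Real.log n - n + (v - n) * Real.log v := by
  have hn0 : 0 < n := by linarith
  have hv0 : 0 < v := by linarith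
  have hl : 0 ≤ Real.log n := Real.log_nonneg hn
  have hlv : Real.log n ≤ Real.log v := Real.log_le_log hn0 hnv
  constructor
  · have h1 : Real.log (n / v) ≤ n / v - 1 := Real.log_le_sub_one_of_pos (by positivity)
    rw [Real.log_div hn0.ne' hv0.ne'] at h1
    have h2 : v * (Real.log n - Real.log v) ≤ n - v := by
      calc v * (Real.log n - Real.log v) ≤ v * (n / v - 1) := mul_le_mul_of_nonneg_left h1 hv0.le
        _ = n - v := by field_simp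
    nlinarith
  · have h1 : Real.log (v / n) ≤ v / n - 1 := Real.log_le_sub_one_of_pos (by positivity)
    rw [Real.log_div hv0.ne' hn0.ne'] at h1
    have h2 : n * (Real.log v - Real.log n) ≤ v - n := by
      calc n * (Real.log v - Real.log n) ≤ n * (v / n - 1) := mul_le_mul_of_nonneg_left h1 hn0.le
        _ = v - n := by field_simp
    nlinarith

/-- `∑_{b ≤ v} log b = v log v - v + O(1 + log v)`. -/
lemma sum_log_asymp {v : ℝ} (hv : 1 ≤ v) :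
    |∑ b ∈ Finset.Icc 1 ⌊v⌋₊, Real.log b - (v * Real.log v - v)| ≤ 1 + Real.log v := by
  have hn : 1 ≤ ⌊v⌋₊ := (Nat.one_le_floor_iff v).mpr hv
  have hn0 : (1 : ℝ) ≤ (⌊v⌋₊ : ℝ) := by exact_mod_cast hn
  have h2 : (⌊v⌋₊ : ℝ) ≤ v := Nat.floor_le (by linarith)
  have h3 : v < (⌊v⌋₊ : ℝ) + 1 := Nat.lt_floor_add_one v
  have hl : 0 ≤ Real.log v := Real.log_nonneg hv
  have hlv : Real.log (⌊v⌋₊ : ℝ) ≤ Real.log v := Real.log_le_log (by linarith) h2
  have h4 := xlogx_mono hn0 h2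
  have h5 := log_fact_lower hn
  have h6 := log_fact_upper hn
  rw [sum_log_eq, abs_le]
  constructor
  · nlinarith [h4.1, h4.2]
  · nlinarith [h4.1, h4.2]

end Pool.Agent.Lib.MP_6bc78b_nt.MS.L.H61
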